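import Pool.Agent.helper85.AQ.SpecL

set_option autoImplicit false

namespace Pool.Agent.AQ

open Pool.Agent.GJ
open scoped TensorProduct

noncomputable section

theorem LSK_mem {Ω V : Type} [Field Ω] [AddCommGroup V] [Module Ω V] {Z : V →ₗ[Ω] V} {ζ : Ω}
    {s : ℕ} {x : V} : x ∈ eg Z ζ s ↔ Z x = ζ ^ s • x := by
  unfold eg
  rw [LinearMap.mem_ker, LinearMap.sub_apply, LinearMap.smul_apply, LinearMap.id_apply,
    sub_eq_zero]

/-- the projections to the eigenspaces -/
theorem LSK_proj {Ω V : Type} [Field Ω] [AddCommGroup V] [Module Ω V] (l : ℕ) (Z : V →ₗ[Ω] V)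
    (ζ : Ω) (hD : Dec l Z ζ) : ∃ π : ℕ → V →ₗ[Ω] V,
      (∀ s, 0 < s → s < l → ∀ w, π s w ∈ eg Z ζ s) ∧
      (∀ w, w = ∑ s ∈ Finset.Ioo 0 l, π s w) ∧
      (∀ s r, 0 < s → s < l → 0 < r → r < l → ∀ x ∈ eg Z ζ r, π s x = if s = r then x else 0) := by
  classical
  choose u hu huu using fun w => hD w
  simp only at hu huu
  have hadd : ∀ w w', u (w + w') = u w + u w' := by
    intro w w'
    refine (huu (w + w') (u w + u w') ⟨fun s => ?_, ?_⟩).symm
    · exact Submodule.add_mem _ ((hu w).1 s) ((hu w').1 s)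
    · simp only [Pi.add_apply]
      rw [Finset.sum_add_distrib, ← (hu w).2, ← (hu w').2]
  have hsmul : ∀ (c : Ω) w, u (c • w) = c • u w := by
    intro c w
    refine (huu (c • w) (c • u w) ⟨fun s => ?_, ?_⟩).symm
    · exact Submodule.smul_mem _ _ ((hu w).1 s)
    · simp only [Pi.smul_apply]
      rw [← Finset.smul_sum, ← (hu w).2]
  let P : Fin (l - 1) → V →ₗ[Ω] V := fun s =>
    { toFun := fun w => u w s
      map_add' := fun w w' => by rw [hadd]; rfl
      map_smul' := fun c w => by rw [hsmul]; rfl }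
  let π : ℕ → V →ₗ[Ω] V := fun s => if h : 0 < s ∧ s < l then P ⟨s - 1, by omega⟩ else 0
  have hπ : ∀ s (h1 : 0 < s) (h2 : s < l) w, π s w = u w ⟨s - 1, by omega⟩ := by
    intro s h1 h2 w
    simp only [π, h1, h2, and_self, dif_pos]
    rfl
  refine ⟨π, ?_, ?_, ?_⟩
  · intro s h1 h2 w
    rw [hπ s h1 h2]
    have h3 := (hu w).1 ⟨s - 1, by omega⟩
    have h4 : ((⟨s - 1, by omega⟩ : Fin (l - 1)) : ℕ) + 1 = s := by simp only; omega
    rw [h4] at h3
    exact h3
  · intro w
    have h1 : ∑ s ∈ Finset.Ioo 0 l, π s w = ∑ i ∈ Finset.range (l - 1), π (i + 1) w := by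
      symm
      apply Finset.sum_bij (fun i _ => i + 1)
      · intro a ha
        rw [Finset.mem_range] at ha
        rw [Finset.mem_Ioo]
        omega
      · intro a _ b _ h
        omega
      · intro b hb
        rw [Finset.mem_Ioo] at hb
        refine ⟨b - 1, ?_, by omega⟩
        rw [Finset.mem_range]
        omega
      · intro a _
        rfl
    rw [h1, ← Fin.sum_univ_eq_sum_range (fun i => π (i + 1) w) (l - 1)]
    conv_lhs => rw [(hu w).2]
    refine Finset.sum_congr rfl fun i _ => ?_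
    rw [hπ (i + 1) (by omega) (by have := i.2; omega)]
    rfl
  · intro s r hs1 hs2 hr1 hr2 x hx
    rw [hπ s hs1 hs2]
    have h1 : u x = Pi.single (⟨r - 1, by omega⟩ : Fin (l - 1)) x := by
      refine (huu x _ ⟨fun i => ?_, ?_⟩).symm
      · by_cases h : i = ⟨r - 1, by omega⟩
        · subst h
          rw [Pi.single_eq_same]
          have h4 : ((⟨r - 1, by omega⟩ : Fin (l - 1)) : ℕ) + 1 = r := by simp only; omega
          rw [h4]
          exact hx
        · rw [Pi.single_eq_of_ne h]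
          exact Submodule.zero_mem _
      · rw [Finset.sum_pi_single']
        simp
    rw [h1]
    by_cases h : s = r
    · subst h
      rw [Pi.single_eq_same, if_pos rfl]
    · rw [if_neg h, Pi.single_eq_of_ne]
      intro h2
      apply h
      have := congrArg Fin.val h2
      simp only at this
      omega

/-- the pairing of different eigenspaces is zero -/
theorem LSK_orth {Ω V : Type} [Field Ω] [AddCommGroup V] [Module Ω V] {l : ℕ}
    {Z : V →ₗ[Ω] V} {ζ : Ω} (hζ : IsPrimitiveRoot ζ l) {E : V →ₗ[Ω] V →ₗ[Ω] Ω}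
    (hE : ∀ x y, E (Z x) (Z y) = E x y) {s r : ℕ} (hs : 0 < s) (hsl : s < l) (hr : r < l)
    (hsr : s + r ≠ l) {x y : V} (hx : x ∈ eg Z ζ s) (hy : y ∈ eg Z ζ r) : E x y = 0 := by
  have h1 := hE x y
  rw [LSK_mem.mp hx, LSK_mem.mp hy] at h1
  simp only [map_smul, LinearMap.smul_apply, smul_eq_mul] at h1
  have h2 : (ζ ^ (s + r) - 1) * E x y = 0 := by
    rw [pow_add]
    linear_combination h1
  rcases mul_eq_zero.mp h2 with h3 | h3
  · exfalso
    have h4 : ζ ^ (s + r) = 1 := sub_eq_zero.mp h3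
    have h5 : l ∣ s + r := (hζ.pow_eq_one_iff_dvd _).mp h4
    obtain ⟨c, hc⟩ := h5
    have h6 : c = 1 := by
      have h7 : c < 2 := by
        by_contra h8
        push Not at h8
        have : l * 2 ≤ l * c := Nat.mul_le_mul_left l h8
        omega
      have h9 : 0 < c := by
        rcases Nat.eq_zero_or_pos c with h | h
        · subst h; omega
        · exact h
      omega
    subst h6
    omega
  · exact h3

/-- extensionality on the eigenspaces -/
theorem LSK_ext {Ω V W : Type} [Field Ω] [AddCommGroup V] [Module Ω V] [AddCommGroup W]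
    [Module Ω W] {l : ℕ} {Z : V →ₗ[Ω] V}
    {ζ : Ω} (hD : Dec l Z ζ) (A B : V →ₗ[Ω] W)
    (h : ∀ r, 0 < r → r < l → ∀ x ∈ eg Z ζ r, A x = B x) : A = B := by
  obtain ⟨π, h1, h2, h3⟩ := LSK_proj l Z ζ hD
  ext w
  rw [h2 w, map_sum, map_sum]
  refine Finset.sum_congr rfl fun s hs => ?_
  rw [Finset.mem_Ioo] at hs
  exact h s hs.1 hs.2 _ (h1 s hs.1 hs.2 w)

/-- an operator which preserves all eigenspaces and is skew on dual pairs is `CS` -/
theorem LSK_cs {Ω V : Type} [Field Ω] [AddCommGroup V] [Module Ω V] {l : ℕ} {Z : V →ₗ[Ω] V}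
    {ζ : Ω} (hζ : IsPrimitiveRoot ζ l) (hD : Dec l Z ζ) {E : V →ₗ[Ω] V →ₗ[Ω] Ω}
    (hE : ∀ x y, E (Z x) (Z y) = E x y) (A : V →ₗ[Ω] V)
    (hA : ∀ r, 0 < r → r < l → ∀ x ∈ eg Z ζ r, A x ∈ eg Z ζ r)
    (hs : ∀ r, 0 < r → r < l → ∀ x ∈ eg Z ζ r, ∀ y ∈ eg Z ζ (l - r), E (A x) y = - E x (A y)) :
    CS Z E A := by
  constructor
  · apply LSK_ext hD
    intro r hr1 hr2 x hx
    simp only [LinearMap.comp_apply]
    rw [LSK_mem.mp hx, map_smul, LSK_mem.mp (hA r hr1 hr2 x hx)]
  · have h1 : E ∘ₗ A = -(E.compl₂ A) := by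
      apply LSK_ext hD
      intro r hr1 hr2 x hx
      apply LSK_ext hD
      intro r' hr1' hr2' y hy
      simp only [LinearMap.comp_apply, LinearMap.neg_apply, LinearMap.compl₂_apply]
      by_cases h : r + r' = l
      · have h2 : r' = l - r := by omega
        subst h2
        exact hs r hr1 hr2 x hx y hy
      · rw [LSK_orth hζ hE hr1 hr2 hr2' h (hA r hr1 hr2 x hx) hy,
          LSK_orth hζ hE hr1 hr2 hr2' h hx (hA r' hr1' hr2' y hy), neg_zero]
    intro x y
    have h2 := LinearMap.congr_fun (LinearMap.congr_fun h1 x) y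
    simpa only [LinearMap.comp_apply, LinearMap.neg_apply, LinearMap.compl₂_apply] using h2

theorem LSK_cs_mem {Ω V : Type} [Field Ω] [AddCommGroup V] [Module Ω V] {Z : V →ₗ[Ω] V}
    {ζ : Ω} {A : V →ₗ[Ω] V} (hA : A ∘ₗ Z = Z ∘ₗ A) {r : ℕ} {x : V}
    (hx : x ∈ eg Z ζ r) : A x ∈ eg Z ζ r := by
  rw [LSK_mem] at hx ⊢
  have h1 := LinearMap.congr_fun hA x
  simp only [LinearMap.comp_apply] at h1
  rw [← h1, hx, map_smul]

/-- nondegeneracy of the pairing -/
theorem LSK_nd {Ω V : Type} [Field Ω] [AddCommGroup V] [Module Ω V] {l : ℕ} {Z : V →ₗ[Ω] V}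
    {ζ : Ω} (hζ : IsPrimitiveRoot ζ l) (hD : Dec l Z ζ) {E : V →ₗ[Ω] V →ₗ[Ω] Ω}
    (hnd : ∀ x, (∀ y, E x y = 0) → x = 0) (halt : ∀ x y, E x y = - E y x)
    (hE : ∀ x y, E (Z x) (Z y) = E x y) {s : ℕ} (hs1 : 0 < s) (hs2 : s < l) {x : V}
    (hx : x ∈ eg Z ζ (l - s)) (h : ∀ y ∈ eg Z ζ s, E y x = 0) : x = 0 := by
  apply hnd
  have h1 : E x = 0 := by
    apply LSK_ext hD
    intro r hr1 hr2 y hy
    rw [LinearMap.zero_apply, halt]
    by_cases h2 : r = s
    · subst h2
      rw [h y hy, neg_zero]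
    · rw [LSK_orth hζ hE hr1 hr2 (by omega : l - s < l) (by omega) hy hx, neg_zero]
  intro y
  rw [h1]
  rfl

/-- the duality between the eigenspaces -/
theorem LSK_dual {Ω V : Type} [Field Ω] [AddCommGroup V] [Module Ω V] [FiniteDimensional Ω V]
    {l : ℕ} {Z : V →ₗ[Ω] V}
    {ζ : Ω} (hζ : IsPrimitiveRoot ζ l) (hD : Dec l Z ζ) {E : V →ₗ[Ω] V →ₗ[Ω] Ω}
    (hnd : ∀ x, (∀ y, E x y = 0) → x = 0) (halt : ∀ x y, E x y = - E y x)
    (hE : ∀ x y, E (Z x) (Z y) = E x y) {s : ℕ} (hs1 : 0 < s) (hs2 : s < l) :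
    ∃ Φ : eg Z ζ (l - s) ≃ₗ[Ω] Module.Dual Ω (eg Z ζ s), ∀ x y, Φ x y = E y x := by
  have key : ∀ s', 0 < s' → s' < l → ∃ F : eg Z ζ (l - s') →ₗ[Ω] Module.Dual Ω (eg Z ζ s'),
      (∀ x y, F x y = E y x) ∧ Function.Injective F := by
    intro s' h1 h2
    refine ⟨(E.flip.domRestrict (eg Z ζ (l - s'))).compl₂ (eg Z ζ s').subtype, ?_, ?_⟩
    · intro x y
      rfl
    · rw [injective_iff_map_eq_zero]
      intro x hx
      apply Subtype.ext
      refine LSK_nd hζ hD hnd halt hE h1 h2 x.2 fun y hy => ?_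
      exact LinearMap.congr_fun hx ⟨y, hy⟩
  obtain ⟨F, hF1, hF2⟩ := key s hs1 hs2
  obtain ⟨F', hF1', hF2'⟩ := key (l - s) (by omega) (by omega)
  have h3 : l - (l - s) = s := by omega
  have h4 := LinearMap.finrank_le_finrank_of_injective hF2
  have h5 := LinearMap.finrank_le_finrank_of_injective hF2'
  rw [Subspace.dual_finrank_eq] at h4 h5
  rw [h3] at h5
  have h6 : Module.finrank Ω (eg Z ζ (l - s)) = Module.finrank Ω (Module.Dual Ω (eg Z ζ s)) := by
    rw [Subspace.dual_finrank_eq]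
    omega
  refine ⟨LinearEquiv.ofInjectiveOfFinrankEq F hF2 h6, fun x y => ?_⟩
  exact hF1 x y

theorem LSK_pairs (l : ℕ) (hl : Odd l) {M : Type} [AddCommMonoid M] (f : ℕ → M) :
    ∑ s ∈ Finset.Ioo 0 l, f s = ∑ s : Fin ((l - 1) / 2), (f ((s : ℕ) + 1) + f (l - ((s : ℕ) + 1))) := by
  obtain ⟨h, rfl⟩ := hl
  have e1 : (2 * h + 1 - 1) / 2 = h := by omega
  rw [e1, Fin.sum_univ_eq_sum_range (fun s => f (s + 1) + f (2 * h + 1 - (s + 1))) h,
    Finset.sum_add_distrib]
  have h1 : ∑ s ∈ Finset.Ioo 0 (2 * h + 1), f s = ∑ i ∈ Finset.range (h + h), f (i + 1) := by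
    symm
    apply Finset.sum_bij (fun i _ => i + 1)
    · intro a ha
      rw [Finset.mem_range] at ha
      rw [Finset.mem_Ioo]
      omega
    · intro a _ b _ h
      omega
    · intro b hb
      rw [Finset.mem_Ioo] at hb
      refine ⟨b - 1, ?_, by omega⟩
      rw [Finset.mem_range]
      omega
    · intro a _
      rfl
  rw [h1, Finset.sum_range_add]
  congr 1
  rw [← Finset.sum_range_reflect]
  refine Finset.sum_congr rfl fun i hi => ?_
  rw [Finset.mem_range] at hi
  congr 1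
  omega

theorem LSK : LSK_stmt := by
  classical
  intro Ω V _ _ _ _ _ l n hl hl2 Z ζ hζ hD E hnd halt hE
  have hodd : Odd l := hl.odd_of_ne_two hl2
  obtain ⟨π, hπ1, hπ2, hπ3⟩ := LSK_proj l Z ζ hD
  have hlne : ∀ s, 0 < s → s < l → s ≠ l - s := by
    intro s h1 h2 h3
    obtain ⟨h, rfl⟩ := hodd
    omega
  refine ⟨?_, ?_, ?_⟩
  · intro s hs1 hs2 N
    obtain ⟨Φ, hΦ⟩ := LSK_dual hζ hD hnd halt hE hs1 hs2
    have hls1 : 0 < l - s := by omega
    have hls2 : l - s < l := by omega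
    have hne := hlne s hs1 hs2
    let T : eg Z ζ (l - s) →ₗ[Ω] eg Z ζ (l - s) :=
      -((Φ.symm : Module.Dual Ω (eg Z ζ s) →ₗ[Ω] eg Z ζ (l - s)) ∘ₗ N.dualMap ∘ₗ
        (Φ : eg Z ζ (l - s) →ₗ[Ω] Module.Dual Ω (eg Z ζ s)))
    have hT : ∀ (x : eg Z ζ (l - s)) (y : eg Z ζ s), E y (T x) = - E (N y) x := by
      intro x y
      rw [← hΦ (T x) y, ← hΦ x (N y)]
      simp only [T, LinearMap.neg_apply, LinearMap.comp_apply, map_neg, LinearEquiv.coe_coe,
        LinearEquiv.apply_symm_apply, LinearMap.dualMap_apply]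
    let pS : V →ₗ[Ω] eg Z ζ s := (π s).codRestrict (eg Z ζ s) (hπ1 s hs1 hs2)
    let pL : V →ₗ[Ω] eg Z ζ (l - s) := (π (l - s)).codRestrict (eg Z ζ (l - s)) (hπ1 (l - s) hls1 hls2)
    let A : V →ₗ[Ω] V := (eg Z ζ s).subtype ∘ₗ N ∘ₗ pS + (eg Z ζ (l - s)).subtype ∘ₗ T ∘ₗ pL
    have hAx : ∀ w, A w = (N (pS w) : V) + (T (pL w) : V) := fun w => rfl
    have hpS : ∀ r, 0 < r → r < l → r ≠ s → ∀ x ∈ eg Z ζ r, pS x = 0 := by
      intro r h1 h2 h3 x hx
      apply Subtype.ext
      have := hπ3 s r hs1 hs2 h1 h2 x hx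
      rw [if_neg (Ne.symm h3)] at this
      exact this
    have hpL : ∀ r, 0 < r → r < l → r ≠ l - s → ∀ x ∈ eg Z ζ r, pL x = 0 := by
      intro r h1 h2 h3 x hx
      apply Subtype.ext
      have := hπ3 (l - s) r hls1 hls2 h1 h2 x hx
      rw [if_neg (Ne.symm h3)] at this
      exact this
    have hA1 : ∀ x : eg Z ζ s, A x = N x := by
      intro x
      have h1 : pS x = x := by
        apply Subtype.ext
        have := hπ3 s s hs1 hs2 hs1 hs2 x x.2
        rw [if_pos rfl] at this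
        exact this
      rw [hAx, h1, hpL s hs1 hs2 hne x x.2, map_zero, Submodule.coe_zero, add_zero]
    have hA2 : ∀ x : eg Z ζ (l - s), A x = T x := by
      intro x
      have h1 : pL x = x := by
        apply Subtype.ext
        have := hπ3 (l - s) (l - s) hls1 hls2 hls1 hls2 x x.2
        rw [if_pos rfl] at this
        exact this
      rw [hAx, h1, hpS (l - s) hls1 hls2 hne.symm x x.2, map_zero, Submodule.coe_zero, zero_add]
    have hA3 : Only l Z ζ s A := by
      intro r h1 h2 h3 h4 x hx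
      rw [hAx, hpS r h1 h2 h3 x hx, hpL r h1 h2 h4 x hx, map_zero, map_zero,
        Submodule.coe_zero, Submodule.coe_zero, add_zero]
    have hA4 : CS Z E A := by
      apply LSK_cs hζ hD hE
      · intro r h1 h2 x hx
        by_cases h3 : r = s
        · subst h3
          have := hA1 ⟨x, hx⟩
          simp only at this
          rw [this]
          exact (N ⟨x, hx⟩).2
        · by_cases h4 : r = l - s
          · subst h4
            have := hA2 ⟨x, hx⟩
            simp only at this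
            rw [this]
            exact (T ⟨x, hx⟩).2
          · rw [hA3 r h1 h2 h3 h4 x hx]
            exact Submodule.zero_mem _
      · intro r h1 h2 x hx y hy
        by_cases h3 : r = s
        · subst h3
          have e1 := hA1 ⟨x, hx⟩
          have e2 := hA2 ⟨y, hy⟩
          have e3 := hT ⟨y, hy⟩ ⟨x, hx⟩
          simp only at e1 e2 e3
          rw [e1, e2, e3, neg_neg]
        · by_cases h4 : r = l - s
          · subst h4
            have h5 : l - (l - s) = s := by omega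
            rw [h5] at hy
            have e1 := hA2 ⟨x, hx⟩
            have e2 := hA1 ⟨y, hy⟩
            have e3 := hT ⟨x, hx⟩ ⟨y, hy⟩
            simp only at e1 e2 e3
            rw [e1, e2, halt _ y, e3, halt x, neg_neg]
          · rw [hA3 r h1 h2 h3 h4 x hx, hA3 (l - r) (by omega) (by omega) (by omega) (by omega) y hy]
            simp
    refine ⟨A, ⟨hA4, hA1, hA3⟩, ?_⟩
    rintro A' ⟨h1, h2, h3⟩
    apply LSK_ext hD
    intro r hr1 hr2 x hx
    by_cases h4 : r = s
    · subst h4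
      have e1 := hA1 ⟨x, hx⟩
      have e2 := h2 ⟨x, hx⟩
      simp only at e1 e2
      rw [e1, e2]
    · by_cases h5 : r = l - s
      · subst h5
        rw [← sub_eq_zero]
        refine LSK_nd hζ hD hnd halt hE hs1 hs2 ?_ ?_
        · exact Submodule.sub_mem _ (LSK_cs_mem h1.1 hx) (LSK_cs_mem hA4.1 hx)
        · intro y hy
          have e1 := h1.2 y x
          have e2 := hA4.2 y x
          have e3 := hA1 ⟨y, hy⟩
          have e4 := h2 ⟨y, hy⟩
          simp only at e3 e4
          rw [e4] at e1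
          rw [e3] at e2
          rw [map_sub]
          linear_combination e1 - e2
      · rw [hA3 r hr1 hr2 h4 h5 x hx, h3 r hr1 hr2 h4 h5 x hx]
  · intro A hA
    have hs : ∀ s : Fin ((l - 1) / 2), 0 < (s : ℕ) + 1 ∧ (s : ℕ) + 1 < l ∧ 0 < l - ((s : ℕ) + 1) ∧ l - ((s : ℕ) + 1) < l := by
      intro s
      have := s.2
      omega
    have hB : ∀ s : Fin ((l - 1) / 2), ∀ r, 0 < r → r < l → ∀ x ∈ eg Z ζ r,
        (A ∘ₗ (π ((s : ℕ) + 1) + π (l - ((s : ℕ) + 1)))) x =
          if r = (s : ℕ) + 1 ∨ r = l - ((s : ℕ) + 1) then A x else 0 := by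
      intro s r h1 h2 x hx
      obtain ⟨h3, h4, h5, h6⟩ := hs s
      simp only [LinearMap.comp_apply, LinearMap.add_apply]
      rw [hπ3 _ r h3 h4 h1 h2 x hx, hπ3 _ r h5 h6 h1 h2 x hx]
      have h7 := hlne _ h3 h4
      by_cases h8 : r = (s : ℕ) + 1
      · rw [if_pos h8.symm, if_neg (by omega), if_pos (Or.inl h8), add_zero]
      · by_cases h9 : r = l - ((s : ℕ) + 1)
        · rw [if_neg (by omega), if_pos h9.symm, if_pos (Or.inr h9), zero_add]
        · rw [if_neg (by omega), if_neg (by omega), if_neg (by omega), add_zero, map_zero]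
    refine ⟨fun s => A ∘ₗ (π ((s : ℕ) + 1) + π (l - ((s : ℕ) + 1))), ?_, fun s => ⟨?_, ?_, ?_⟩⟩
    · ext w
      rw [LinearMap.sum_apply]
      conv_lhs => rw [hπ2 w, map_sum]
      rw [LSK_pairs l hodd]
      refine Finset.sum_congr rfl fun s _ => ?_
      simp only [LinearMap.comp_apply, LinearMap.add_apply, map_add]
    · obtain ⟨h3, h4, h5, h6⟩ := hs s
      apply LSK_cs hζ hD hE
      · intro r h1 h2 x hx
        rw [hB s r h1 h2 x hx]
        split_ifs
        · exact LSK_cs_mem hA.1 hx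
        · exact Submodule.zero_mem _
      · intro r h1 h2 x hx y hy
        rw [hB s r h1 h2 x hx, hB s (l - r) (by omega) (by omega) y hy]
        by_cases h7 : r = (s : ℕ) + 1 ∨ r = l - ((s : ℕ) + 1)
        · rw [if_pos h7, if_pos (by omega)]
          exact hA.2 x y
        · rw [if_neg h7, if_neg (by omega)]
          simp
    · intro r h1 h2 h7 h8 x hx
      rw [hB s r h1 h2 x hx, if_neg (by omega)]
    · intro x hx
      obtain ⟨h3, h4, h5, h6⟩ := hs s
      rw [hB s _ h3 h4 x hx, if_pos (Or.inl rfl)]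
  · intro s hs1 hs2 v
    obtain ⟨Φ, hΦ⟩ := LSK_dual hζ hD hnd halt hE hs1 hs2
    have hE1 : ∀ i j, E (v i) ((v.dualBasis.map Φ.symm) j) = if i = j then 1 else 0 := by
      intro i j
      rw [← hΦ, Module.Basis.map_apply, LinearEquiv.apply_symm_apply, Module.Basis.dualBasis_apply_self]
    have key : ∀ x ∈ eg Z ζ (l - s), (∀ j, E (v j) x = 0) → x = 0 := by
      intro x hx h
      refine LSK_nd hζ hD hnd halt hE hs1 hs2 hx fun y hy => ?_
      have h1 : (E.flip x) ∘ₗ (eg Z ζ s).subtype = 0 := by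
        apply v.ext
        intro j
        simpa using h j
      exact LinearMap.congr_fun h1 ⟨y, hy⟩
    refine ⟨v.dualBasis.map Φ.symm, hE1, ?_, ?_⟩
    · intro g c α hg hgE hα hgv i
      rw [← sub_eq_zero]
      apply key
      · exact Submodule.sub_mem _ (LSK_cs_mem hg (Subtype.mem _)) (Submodule.smul_mem _ _ (Subtype.mem _))
      · intro j
        have h1 := hgE (v j) ((v.dualBasis.map Φ.symm) i)
        rw [hgv j, hE1] at h1
        simp only [map_smul, LinearMap.smul_apply, smul_eq_mul] at h1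
        rw [map_sub, map_smul, hE1, smul_eq_mul]
        have h2 := hα j
        by_cases h3 : j = i
        · subst h3
          rw [if_pos rfl] at h1 ⊢
          field_simp
          linear_combination h1
        · rw [if_neg h3] at h1 ⊢
          rw [mul_zero] at h1
          rcases mul_eq_zero.mp h1 with h4 | h4
          · exact absurd h4 h2
          · rw [h4]
            ring
    · intro A x hA hAv i
      rw [← sub_eq_zero]
      apply key
      · exact Submodule.sub_mem _ (LSK_cs_mem hA.1 (Subtype.mem _)) (Submodule.smul_mem _ _ (Subtype.mem _))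
      · intro j
        have h1 := hA.2 (v j) ((v.dualBasis.map Φ.symm) i)
        rw [hAv j] at h1
        simp only [map_smul, LinearMap.smul_apply, smul_eq_mul] at h1
        rw [map_sub, map_smul, hE1, smul_eq_mul]
        rw [hE1] at h1
        by_cases h3 : j = i
        · subst h3
          rw [if_pos rfl] at h1 ⊢
          linear_combination h1
        · rw [if_neg h3] at h1 ⊢
          linear_combination h1

end

end Pool.Agent.AQ
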