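import Pool.Agent.helper85.AQ.SpecL
import Pool.Agent.helper15.AQ.LSK

set_option autoImplicit false

namespace Pool.Agent.AQ

open Pool.Agent.GJ
open scoped TensorProduct

noncomputable section

theorem LWB_basis {Ω V : Type} [Field Ω] [AddCommGroup V] [Module Ω V] (l n : ℕ) (hl : Odd l)
    (Z : V →ₗ[Ω] V) (ζ : Ω) (hD : Dec l Z ζ)
    (v : ∀ s : Fin ((l - 1) / 2), Module.Basis (Fin n) Ω (eg Z ζ ((s : ℕ) + 1)))
    (v' : ∀ s : Fin ((l - 1) / 2), Module.Basis (Fin n) Ω (eg Z ζ (l - ((s : ℕ) + 1)))) :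
    ∃ b : Module.Basis ((Fin ((l - 1) / 2) × Fin n) ⊕ (Fin ((l - 1) / 2) × Fin n)) Ω V,
      (∀ s t, b (Sum.inl (s, t)) = v s t) ∧ (∀ s t, b (Sum.inr (s, t)) = v' s t) := by
  classical
  obtain ⟨π, hπ1, hπ2, hπ3⟩ := LSK_proj l Z ζ hD
  have hs : ∀ s : Fin ((l - 1) / 2), 0 < (s : ℕ) + 1 ∧ (s : ℕ) + 1 < l ∧ 0 < l - ((s : ℕ) + 1) ∧ l - ((s : ℕ) + 1) < l := by
    intro s
    have := s.2
    omega
  let f : (Fin ((l - 1) / 2) × Fin n) ⊕ (Fin ((l - 1) / 2) × Fin n) → V :=
    Sum.elim (fun p => (v p.1 p.2 : V)) (fun p => (v' p.1 p.2 : V))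
  have hli : LinearIndependent Ω f := by
    rw [Fintype.linearIndependent_iff]
    intro g hg
    rw [Fintype.sum_sum_type, Fintype.sum_prod_type, Fintype.sum_prod_type] at hg
    simp only [f, Sum.elim_inl, Sum.elim_inr] at hg
    have key : ∀ r, 0 < r → r < l →
        (∑ s : Fin ((l - 1) / 2), ∑ t, g (Sum.inl (s, t)) • (if r = (s : ℕ) + 1 then (v s t : V) else 0)) +
        (∑ s : Fin ((l - 1) / 2), ∑ t, g (Sum.inr (s, t)) • (if r = l - ((s : ℕ) + 1) then (v' s t : V) else 0)) = 0 := by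
      intro r h1 h2
      have h3 := congrArg (π r) hg
      rw [map_add, map_sum, map_sum, map_zero] at h3
      refine Eq.trans ?_ h3
      congr 1
      · refine Finset.sum_congr rfl fun s _ => ?_
        rw [map_sum]
        refine Finset.sum_congr rfl fun t _ => ?_
        rw [map_smul, hπ3 r _ h1 h2 (hs s).1 (hs s).2.1 _ (v s t).2]
      · refine Finset.sum_congr rfl fun s _ => ?_
        rw [map_sum]
        refine Finset.sum_congr rfl fun t _ => ?_
        rw [map_smul, hπ3 r _ h1 h2 (hs s).2.2.1 (hs s).2.2.2 _ (v' s t).2]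
    rintro (⟨s, t⟩ | ⟨s, t⟩)
    · have h1 := key ((s : ℕ) + 1) (hs s).1 (hs s).2.1
      have h2 : (∑ s' : Fin ((l - 1) / 2), ∑ t, g (Sum.inr (s', t)) • (if (s : ℕ) + 1 = l - ((s' : ℕ) + 1) then (v' s' t : V) else 0)) = 0 := by
        refine Finset.sum_eq_zero fun s' _ => Finset.sum_eq_zero fun t' _ => ?_
        have := s.2
        have := s'.2
        rw [if_neg (by omega), smul_zero]
      rw [h2, add_zero, Finset.sum_eq_single s] at h1
      · simp only [if_true] at h1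
        have h3 : ∑ t, g (Sum.inl (s, t)) • v s t = 0 := by
          apply Subtype.ext
          simpa using h1
        exact Fintype.linearIndependent_iff.mp (v s).linearIndependent _ h3 t
      · intro s' _ h4
        refine Finset.sum_eq_zero fun t' _ => ?_
        rw [if_neg, smul_zero]
        intro h5
        exact h4 (Fin.ext (by omega))
      · intro h4
        exact absurd (Finset.mem_univ _) h4
    · have h1 := key (l - ((s : ℕ) + 1)) (hs s).2.2.1 (hs s).2.2.2
      have h2 : (∑ s' : Fin ((l - 1) / 2), ∑ t, g (Sum.inl (s', t)) • (if l - ((s : ℕ) + 1) = (s' : ℕ) + 1 then (v s' t : V) else 0)) = 0 := by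
        refine Finset.sum_eq_zero fun s' _ => Finset.sum_eq_zero fun t' _ => ?_
        have := s.2
        have := s'.2
        rw [if_neg (by omega), smul_zero]
      rw [h2, zero_add, Finset.sum_eq_single s] at h1
      · simp only [if_true] at h1
        have h3 : ∑ t, g (Sum.inr (s, t)) • v' s t = 0 := by
          apply Subtype.ext
          simpa using h1
        exact Fintype.linearIndependent_iff.mp (v' s).linearIndependent _ h3 t
      · intro s' _ h4
        refine Finset.sum_eq_zero fun t' _ => ?_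
        rw [if_neg, smul_zero]
        intro h5
        have := s.2
        have := s'.2
        exact h4 (Fin.ext (by omega))
      · intro h4
        exact absurd (Finset.mem_univ _) h4
  have hsp : ⊤ ≤ Submodule.span Ω (Set.range f) := by
    intro w _
    rw [hπ2 w, LSK_pairs l hl]
    refine Submodule.sum_mem _ fun s _ => Submodule.add_mem _ ?_ ?_
    · have h1 := congrArg Subtype.val ((v s).sum_repr ⟨π ((s : ℕ) + 1) w, hπ1 _ (hs s).1 (hs s).2.1 w⟩)
      simp only at h1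
      rw [← h1, Submodule.coe_sum]
      refine Submodule.sum_mem _ fun t _ => ?_
      rw [Submodule.coe_smul]
      exact Submodule.smul_mem _ _ (Submodule.subset_span ⟨Sum.inl (s, t), rfl⟩)
    · have h1 := congrArg Subtype.val ((v' s).sum_repr ⟨π (l - ((s : ℕ) + 1)) w, hπ1 _ (hs s).2.2.1 (hs s).2.2.2 w⟩)
      simp only at h1
      rw [← h1, Submodule.coe_sum]
      refine Submodule.sum_mem _ fun t _ => ?_
      rw [Submodule.coe_smul]
      exact Submodule.smul_mem _ _ (Submodule.subset_span ⟨Sum.inr (s, t), rfl⟩)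
  refine ⟨Module.Basis.mk hli hsp, fun s t => ?_, fun s t => ?_⟩
  · rw [Module.Basis.mk_apply]
    rfl
  · rw [Module.Basis.mk_apply]
    rfl

/-- the basis of the product -/
theorem LWB_pi {Ω : Type} [Field Ω] {k : ℕ} {V : Fin k → Type} [∀ i, AddCommGroup (V i)]
    [∀ i, Module Ω (V i)] (e : Fin k → ℕ) {J : Fin k → Type} [∀ i, Finite (J i)]
    (b : ∀ i, Module.Basis (J i) Ω (V i)) :
    ∃ B : Module.Basis (Σ i : Fin k, Σ _ : Fin (e i), J i) Ω (∀ i, Fin (e i) → V i),
      ∀ (A : ∀ i, V i →ₗ[Ω] V i) (β : ∀ i, J i → Ω), (∀ i j, A i (b i j) = β i j • b i j) →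
        dia e A = dg B (fun q => β q.1 q.2.2) := by
  classical
  refine ⟨Pi.basis fun i => Pi.basis fun _ : Fin (e i) => b i, ?_⟩
  intro A β hA
  apply Module.Basis.ext (Pi.basis fun i => Pi.basis fun _ : Fin (e i) => b i)
  rintro ⟨i, c, j⟩
  rw [dg_apply, Pi.basis_apply, Pi.basis_apply]
  simp only
  funext i' c'
  simp only [dia, LinearMap.pi_apply, LinearMap.comp_apply, LinearMap.proj_apply, Pi.smul_apply]
  by_cases h : i' = i
  · subst h
    simp only [Pi.single_eq_same]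
    by_cases h' : c' = c
    · subst h'
      simp only [Pi.single_eq_same]
      exact hA i' j
    · simp only [Pi.single_eq_of_ne h', map_zero, smul_zero]
  · rw [Pi.single_eq_of_ne h]
    simp

theorem LWB_zs {Ω κ : Type} [Field Ω] (a : Ω) (ha : a ≠ 0) (s : Finset κ) (f : κ → ℤ) :
    ∏ i ∈ s, a ^ f i = a ^ ∑ i ∈ s, f i := by
  classical
  induction s using Finset.induction_on with
  | empty => simp
  | insert i s hi ih => rw [Finset.prod_insert hi, Finset.sum_insert hi, zpow_add₀ ha, ih]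

/-- the combinatorial statement about two sets of indices -/
theorem LWB_comb {Ω : Type} [Field Ω] {k : ℕ} (h : ℕ) (n : Fin k → ℕ) (e : Fin k → ℕ) (d0 : ℕ)
    (α : ∀ i, Fin h → Fin (n i) → Ω) (c : Ω) (hc : c ≠ 0) (hα : ∀ i s t, α i s t ≠ 0)
    (hGen : GenA h n (2 * d0) α c) (y : ∀ i, Fin h → Fin (n i) → Ω)
    (hy : ∀ i s, ∑ t, y i s t = 0)
    (β w : ∀ i, (Fin h × Fin (n i)) ⊕ (Fin h × Fin (n i)) → Ω)
    (hβ1 : ∀ i s t, β i (Sum.inl (s, t)) = α i s t) (hβ2 : ∀ i s t, β i (Sum.inr (s, t)) = c / α i s t)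
    (hw1 : ∀ i s t, w i (Sum.inl (s, t)) = y i s t) (hw2 : ∀ i s t, w i (Sum.inr (s, t)) = - y i s t)
    (d : ℕ) (hd : d ≤ d0)
    (I I' : Finset (Σ i : Fin k, Σ _ : Fin (e i), (Fin h × Fin (n i)) ⊕ (Fin h × Fin (n i))))
    (hI : I.card = d) (hI' : I'.card = d)
    (hp : ∏ q ∈ I, β q.1 q.2.2 = ∏ q ∈ I', β q.1 q.2.2) :
    ∑ q ∈ I, w q.1 q.2.2 = ∑ q ∈ I', w q.1 q.2.2 := by
  classical
  let D : (Σ i : Fin k, Σ _ : Fin (e i), (Fin h × Fin (n i)) ⊕ (Fin h × Fin (n i))) → ℤ :=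
    fun q => (if q ∈ I then 1 else 0) - (if q ∈ I' then 1 else 0)
  let M : ∀ i, (Fin h × Fin (n i)) ⊕ (Fin h × Fin (n i)) → ℤ := fun i j => ∑ c, D ⟨i, ⟨c, j⟩⟩
  let P : ∀ i, (Fin h × Fin (n i)) ⊕ (Fin h × Fin (n i)) → ℤ := fun i j => ∑ c, |D ⟨i, ⟨c, j⟩⟩|
  have hβ0 : ∀ i j, β i j ≠ 0 := by
    rintro i (⟨s, t⟩ | ⟨s, t⟩)
    · rw [hβ1]; exact hα i s t
    · rw [hβ2]; exact div_ne_zero hc (hα i s t)
  -- the product
  have h1 : ∏ q, β q.1 q.2.2 ^ D q = 1 := by
    have e1 : ∀ S : Finset (Σ i : Fin k, Σ _ : Fin (e i), (Fin h × Fin (n i)) ⊕ (Fin h × Fin (n i))),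
        ∏ q ∈ S, β q.1 q.2.2 = ∏ q, β q.1 q.2.2 ^ (if q ∈ S then (1 : ℤ) else 0) := by
      intro S
      rw [← Finset.prod_subset (Finset.subset_univ S)]
      · refine Finset.prod_congr rfl fun q hq => ?_
        rw [if_pos hq, zpow_one]
      · intro q _ hq
        rw [if_neg hq, zpow_zero]
    have e2 : ∀ q, β q.1 q.2.2 ^ D q = β q.1 q.2.2 ^ (if q ∈ I then (1 : ℤ) else 0) / β q.1 q.2.2 ^ (if q ∈ I' then (1 : ℤ) else 0) := by
      intro q
      rw [← zpow_sub₀ (hβ0 _ _)]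
    rw [Finset.prod_congr rfl fun q _ => e2 q, Finset.prod_div_distrib, ← e1, ← e1, hp, div_self]
    rw [Finset.prod_ne_zero_iff]
    intro q _
    exact hβ0 _ _
  have h2 : ∏ q, β q.1 q.2.2 ^ D q = ∏ i, ∏ j, β i j ^ M i j := by
    rw [Fintype.prod_sigma]
    refine Finset.prod_congr rfl fun i _ => ?_
    rw [Fintype.prod_sigma, Finset.prod_comm]
    refine Finset.prod_congr rfl fun j _ => ?_
    exact LWB_zs _ (hβ0 i j) _ _
  have h3 : ∏ i, ∏ j, β i j ^ M i j = (∏ i, ∏ s, ∏ t, α i s t ^ (M i (Sum.inl (s, t)) - M i (Sum.inr (s, t)))) *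
      c ^ (∑ i, ∑ s, ∑ t, M i (Sum.inr (s, t))) := by
    have e1 : c ^ (∑ i, ∑ s, ∑ t, M i (Sum.inr (s, t))) = ∏ i, ∏ s, ∏ t, c ^ M i (Sum.inr (s, t)) := by
      rw [← LWB_zs c hc]
      refine Finset.prod_congr rfl fun i _ => ?_
      rw [← LWB_zs c hc]
      refine Finset.prod_congr rfl fun s _ => ?_
      rw [← LWB_zs c hc]
    rw [e1, ← Finset.prod_mul_distrib]
    refine Finset.prod_congr rfl fun i _ => ?_
    rw [Fintype.prod_sum_type, Fintype.prod_prod_type, Fintype.prod_prod_type, ← Finset.prod_mul_distrib,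
      ← Finset.prod_mul_distrib]
    refine Finset.prod_congr rfl fun s _ => ?_
    rw [← Finset.prod_mul_distrib, ← Finset.prod_mul_distrib]
    refine Finset.prod_congr rfl fun t _ => ?_
    rw [hβ1, hβ2, div_zpow, zpow_sub₀ (hα i s t)]
    have := hα i s t
    field_simp
  -- the bounds
  have hP0 : ∀ i j, 0 ≤ P i j := fun i j => Finset.sum_nonneg fun c _ => abs_nonneg _
  have hMP : ∀ i j, |M i j| ≤ P i j := fun i j => Finset.abs_sum_le_sum_abs _ _
  have hsumP : ∑ i, ∑ j, P i j ≤ ((2 * d0 : ℕ) : ℤ) := by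
    have e1 : ∑ i, ∑ j, P i j = ∑ q, |D q| := by
      rw [Fintype.sum_sigma]
      refine Finset.sum_congr rfl fun i _ => ?_
      rw [Fintype.sum_sigma, Finset.sum_comm]
    have e2 : ∀ S : Finset (Σ i : Fin k, Σ _ : Fin (e i), (Fin h × Fin (n i)) ⊕ (Fin h × Fin (n i))),
        ∑ q, (if q ∈ S then (1 : ℤ) else 0) = S.card := by
      intro S
      simp
    have e3 : ∑ q, |D q| ≤ ∑ q, ((if q ∈ I then (1 : ℤ) else 0) + (if q ∈ I' then (1 : ℤ) else 0)) := by
      refine Finset.sum_le_sum fun q _ => ?_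
      simp only [D]
      split_ifs <;> norm_num
    rw [Finset.sum_add_distrib, e2, e2, hI, hI'] at e3
    rw [e1]
    refine e3.trans ?_
    push_cast
    have : (d : ℤ) ≤ d0 := by exact_mod_cast hd
    linarith
  have hP1 : ∑ i, ∑ j, P i j = ∑ i, ∑ s, ∑ t, (P i (Sum.inl (s, t)) + P i (Sum.inr (s, t))) := by
    refine Finset.sum_congr rfl fun i _ => ?_
    rw [Fintype.sum_sum_type, Fintype.sum_prod_type, Fintype.sum_prod_type, ← Finset.sum_add_distrib]
    refine Finset.sum_congr rfl fun s _ => ?_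
    rw [← Finset.sum_add_distrib]
  have hPnn : ∀ i s t, 0 ≤ P i (Sum.inl (s, t)) + P i (Sum.inr (s, t)) := fun i s t =>
    add_nonneg (hP0 _ _) (hP0 _ _)
  have hPle : ∀ i s t, P i (Sum.inl (s, t)) + P i (Sum.inr (s, t)) ≤ ((2 * d0 : ℕ) : ℤ) := by
    intro i s t
    rw [hP1] at hsumP
    refine le_trans ?_ hsumP
    refine le_trans ?_ (Finset.single_le_sum (f := fun i => ∑ s, ∑ t, (P i (Sum.inl (s, t)) + P i (Sum.inr (s, t))))
      (fun i _ => Finset.sum_nonneg fun s _ => Finset.sum_nonneg fun t _ => hPnn i s t) (Finset.mem_univ i))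
    refine le_trans ?_ (Finset.single_le_sum (f := fun s => ∑ t, (P i (Sum.inl (s, t)) + P i (Sum.inr (s, t))))
      (fun s _ => Finset.sum_nonneg fun t _ => hPnn i s t) (Finset.mem_univ s))
    exact Finset.single_le_sum (f := fun t => (P i (Sum.inl (s, t)) + P i (Sum.inr (s, t))))
      (fun t _ => hPnn i s t) (Finset.mem_univ t)
  have hX := hGen (fun i s t => M i (Sum.inl (s, t)) - M i (Sum.inr (s, t)))
    (∑ i, ∑ s, ∑ t, M i (Sum.inr (s, t))) (by
      intro i s t
      refine le_trans (abs_sub _ _) ?_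
      exact le_trans (add_le_add (hMP _ _) (hMP _ _)) (hPle i s t)) (by
      rw [hP1] at hsumP
      refine le_trans ?_ hsumP
      refine le_trans (Finset.abs_sum_le_sum_abs _ _) ?_
      refine Finset.sum_le_sum fun i _ => ?_
      refine le_trans (Finset.abs_sum_le_sum_abs _ _) ?_
      refine Finset.sum_le_sum fun s _ => ?_
      refine le_trans (Finset.abs_sum_le_sum_abs _ _) ?_
      refine Finset.sum_le_sum fun t _ => ?_
      have := hMP i (Sum.inr (s, t))
      have := hP0 i (Sum.inl (s, t))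
      linarith) (by
      rw [← h3, ← h2, h1])
  -- the sum
  rw [← sub_eq_zero]
  have e1 : ∀ S : Finset (Σ i : Fin k, Σ _ : Fin (e i), (Fin h × Fin (n i)) ⊕ (Fin h × Fin (n i))),
      ∑ q ∈ S, w q.1 q.2.2 = ∑ q, (if q ∈ S then (1 : Ω) else 0) * w q.1 q.2.2 := by
    intro S
    rw [← Finset.sum_subset (Finset.subset_univ S)]
    · refine Finset.sum_congr rfl fun q hq => ?_
      rw [if_pos hq, one_mul]
    · intro q _ hq
      rw [if_neg hq, zero_mul]
  have e2 : ∑ q ∈ I, w q.1 q.2.2 - ∑ q ∈ I', w q.1 q.2.2 = ∑ q, ((D q : ℤ) : Ω) * w q.1 q.2.2 := by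
    rw [e1, e1, ← Finset.sum_sub_distrib]
    refine Finset.sum_congr rfl fun q _ => ?_
    simp only [D]
    push_cast
    ring
  have e3 : ∑ q, ((D q : ℤ) : Ω) * w q.1 q.2.2 = ∑ i, ∑ j, ((M i j : ℤ) : Ω) * w i j := by
    rw [Fintype.sum_sigma]
    refine Finset.sum_congr rfl fun i _ => ?_
    rw [Fintype.sum_sigma, Finset.sum_comm]
    refine Finset.sum_congr rfl fun j _ => ?_
    simp only [M]
    push_cast
    rw [Finset.sum_mul]
  rw [e2, e3]
  refine Finset.sum_eq_zero fun i _ => ?_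
  rw [Fintype.sum_sum_type, Fintype.sum_prod_type, Fintype.sum_prod_type, ← Finset.sum_add_distrib]
  refine Finset.sum_eq_zero fun s _ => ?_
  rw [← Finset.sum_add_distrib]
  rcases isEmpty_or_nonempty (Fin (n i)) with h4 | ⟨⟨t0⟩⟩
  · simp
  · have e4 : ∀ t, ((M i (Sum.inl (s, t)) : ℤ) : Ω) * w i (Sum.inl (s, t)) + ((M i (Sum.inr (s, t)) : ℤ) : Ω) * w i (Sum.inr (s, t)) =
        ((M i (Sum.inl (s, t0)) - M i (Sum.inr (s, t0)) : ℤ) : Ω) * y i s t := by
      intro t
      have h5 := hX i s t t0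
      rw [← h5, hw1, hw2]
      push_cast
      ring
    rw [Finset.sum_congr rfl fun t _ => e4 t, ← Finset.mul_sum, hy, mul_zero]

theorem LWB (hLSK : LSK_stmt) (hLWT : LWT_stmt) : LWB_stmt := by
  classical
  intro Ω H _ _ l k hl hl2 ζ hζ V _ _ _ e n Z E hPt d0 ρ h0 v α c hc hα hgZ hgE hgv hGen i0 s0 A x hA hAO hAv hx
  have hodd : Odd l := hl.odd_of_ne_two hl2
  have hs : ∀ s : Fin ((l - 1) / 2), 0 < (s : ℕ) + 1 ∧ (s : ℕ) + 1 < l ∧ 0 < l - ((s : ℕ) + 1) ∧ l - ((s : ℕ) + 1) < l := by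
    intro s
    have := s.2
    omega
  have hL := fun i => hLSK Ω (V i) l (n i) hl hl2 (Z i) ζ hζ (hPt i).dec (E i) (hPt i).nondeg (hPt i).alt (hPt i).inv
  choose v' hv1 hv2 hv3 using fun i (s : Fin ((l - 1) / 2)) => (hL i).2.2 ((s : ℕ) + 1) (hs s).1 (hs s).2.1 (v i s)
  choose b hb1 hb2 using fun i => LWB_basis l (n i) hodd (Z i) ζ (hPt i).dec (v i) (v' i)
  obtain ⟨B, hB⟩ := LWB_pi e b
  let β : ∀ i, (Fin ((l - 1) / 2) × Fin (n i)) ⊕ (Fin ((l - 1) / 2) × Fin (n i)) → Ω := fun i =>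
    Sum.elim (fun p => α i p.1 p.2) (fun p => c / α i p.1 p.2)
  let x' : ∀ i, Fin (n i) → Ω := Function.update (fun _ _ => 0) i0 x
  let y : ∀ i, Fin ((l - 1) / 2) → Fin (n i) → Ω := fun i s t => if s = s0 then x' i t else 0
  let w : ∀ i, (Fin ((l - 1) / 2) × Fin (n i)) ⊕ (Fin ((l - 1) / 2) × Fin (n i)) → Ω := fun i =>
    Sum.elim (fun p => y i p.1 p.2) (fun p => - y i p.1 p.2)
  have hx' : ∀ i, ∑ t, x' i t = 0 := by
    intro i
    by_cases h : i = i0
    · subst h
      simp only [x', Function.update_self]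
      exact hx
    · have h1 : x' i = fun _ => 0 := Function.update_of_ne h _ _
      rw [h1]
      simp
  have hy : ∀ i s, ∑ t, y i s t = 0 := by
    intro i s
    simp only [y]
    split_ifs
    · exact hx' i
    · simp
  have hdia1 : dia e (ρ h0) = dg B (fun q => β q.1 q.2.2) := by
    apply hB
    rintro i (⟨s, t⟩ | ⟨s, t⟩)
    · rw [hb1]
      exact hgv i s t
    · rw [hb2]
      exact hv2 i s (ρ h0 i) c (α i s) (hgZ i) (hgE i) (hα i s) (hgv i s) t
  have hdia2 : dia e (sgl i0 A) = dg B (fun q => w q.1 q.2.2) := by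
    apply hB
    rintro i (⟨s, t⟩ | ⟨s, t⟩)
    · rw [hb1]
      simp only [w, Sum.elim_inl, y]
      by_cases h : i = i0
      · subst h
        simp only [sgl, x', Function.update_self]
        by_cases h' : s = s0
        · subst h'
          rw [if_pos rfl]
          exact hAv t
        · rw [if_neg h', zero_smul]
          have h1 := s.2
          have h2 := s0.2
          refine hAO _ (hs s).1 (hs s).2.1 ?_ (by omega) _ (v i s t).2
          intro h3
          exact h' (Fin.ext (by omega))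
      · simp only [sgl, x', Function.update_of_ne h]
        simp
    · rw [hb2]
      simp only [w, Sum.elim_inr, y]
      by_cases h : i = i0
      · subst h
        simp only [sgl, x', Function.update_self]
        by_cases h' : s = s0
        · subst h'
          rw [if_pos rfl]
          exact hv3 i s A x hA hAv t
        · rw [if_neg h', neg_zero, zero_smul]
          have h1 := s.2
          have h2 := s0.2
          refine hAO _ (hs s).2.2.1 (hs s).2.2.2 (by omega) ?_ _ (v' i s t).2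
          intro h3
          exact h' (Fin.ext (by omega))
      · simp only [sgl, x', Function.update_of_ne h]
        simp
  intro d hd κ
  obtain ⟨c', hc'⟩ := hLWT Ω (∀ i, Fin (e i) → V i) (Σ i : Fin k, Σ _ : Fin (e i), (Fin ((l - 1) / 2) × Fin (n i)) ⊕ (Fin ((l - 1) / 2) × Fin (n i))) B
    (fun q => β q.1 q.2.2) (fun q => w q.1 q.2.2) d
    (fun I I' hI hI' hp => LWB_comb ((l - 1) / 2) n e d0 α c hc hα hGen y hy β w
      (fun i s t => rfl) (fun i s t => rfl) (fun i s t => rfl) (fun i s t => rfl) d hd I I' hI hI' hp) (κ h0)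
  refine ⟨c', fun Y hY hκ => ?_⟩
  have h1 := hc' Y hY (by rw [← hdia1]; exact hκ h0)
  rw [← hdia2] at h1
  exact h1

end

end Pool.Agent.AQ
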