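import Pool.Agent.helper85.AQ.SpecL
import Pool.Agent.helper39.GJ.SpecL

set_option autoImplicit false

namespace Pool.Agent.AQ

open Pool.Agent.GJ
open scoped TensorProduct

noncomputable section

/-- a derivation on a product of eigenvectors -/
theorem LWT_dX_prod (hL10 : GJ.L10_stmt) {Ω W : Type} [Field Ω] [AddCommGroup W] [Module Ω W]
    (A : W →ₗ[Ω] W) (n : ℕ) (w : Fin n → W) (c : Fin n → Ω) (h : ∀ i, A (w i) = c i • w i) :
    dX A (List.ofFn fun i => ExteriorAlgebra.ι Ω (w i)).prod =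
      (∑ i, c i) • (List.ofFn fun i => ExteriorAlgebra.ι Ω (w i)).prod := by
  obtain ⟨h1, h2, h3, -⟩ := hL10 Ω W
  induction n with
  | zero =>
    simp only [List.ofFn_zero, List.prod_nil, Finset.univ_eq_empty, Finset.sum_empty, zero_smul]
    exact h2 A
  | succ n ih =>
    rw [List.ofFn_succ, List.prod_cons, h3, h1, h, map_smul, Fin.sum_univ_succ,
      ih (fun i => w i.succ) (fun i => c i.succ) (fun i => h i.succ), add_smul,
      smul_mul_assoc, mul_smul_comm]

theorem LWT_coe_eq_map {ι : Type} [LinearOrder ι] {d : ℕ} (s : Set.powersetCard ι d) :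
    (s : Finset ι) = Finset.univ.map (Set.powersetCard.ofFinEmbEquiv.symm s).toEmbedding := by
  ext i
  rw [Finset.mem_map]
  have h := Set.powersetCard.mem_range_ofFinEmbEquiv_symm_iff_mem s i
  constructor
  · intro hi
    obtain ⟨j, hj⟩ := h.mpr hi
    exact ⟨j, Finset.mem_univ _, hj⟩
  · rintro ⟨j, -, hj⟩
    exact h.mp ⟨j, hj⟩

theorem LWT (hL10 : GJ.L10_stmt) : LWT_stmt := by
  classical
  intro Ω W ι _ _ _ _ v α x d hd κ
  let _ : LinearOrder ι := linearOrderOfSTO WellOrderingRel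
  let b := v.exteriorPower d
  have _ : Fintype (Set.powersetCard ι d) := Fintype.ofFinite _
  have hb0 : ∀ s : Set.powersetCard ι d, (b s : ExteriorAlgebra Ω W) =
      ExteriorAlgebra.ιMulti Ω d (v ∘ (Set.powersetCard.ofFinEmbEquiv.symm s)) := by
    intro s
    have e1 : b s = exteriorPower.ιMulti_family Ω d v s := exteriorPower.basis_apply Ω d v s
    rw [e1]
    rfl
  -- values on the basis
  have hb1 : ∀ s : Set.powersetCard ι d, ExteriorAlgebra.map (dg v α) (b s : ExteriorAlgebra Ω W) =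
      (∏ t ∈ (s : Finset ι), α t) • (b s : ExteriorAlgebra Ω W) := by
    intro s
    rw [hb0, ExteriorAlgebra.map_apply_ιMulti, LWT_coe_eq_map s, Finset.prod_map]
    have e1 : (⇑(dg v α) ∘ (v ∘ (Set.powersetCard.ofFinEmbEquiv.symm s))) =
        fun i => α (Set.powersetCard.ofFinEmbEquiv.symm s i) •
          (v ∘ (Set.powersetCard.ofFinEmbEquiv.symm s)) i :=
      funext fun i => dg_apply v α _
    rw [e1]
    exact (ExteriorAlgebra.ιMulti Ω d).toMultilinearMap.map_smul_univ _ _
  have hb2 : ∀ s : Set.powersetCard ι d, dX (dg v x) (b s : ExteriorAlgebra Ω W) =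
      (∑ t ∈ (s : Finset ι), x t) • (b s : ExteriorAlgebra Ω W) := by
    intro s
    rw [hb0, ExteriorAlgebra.ιMulti_apply, LWT_coe_eq_map s, Finset.sum_map]
    exact LWT_dX_prod hL10 (dg v x) d _ (fun i => x (Set.powersetCard.ofFinEmbEquiv.symm s i))
      (fun i => dg_apply v x _)
  -- the scalar
  have hc : ∃ c : Ω, ∀ s : Set.powersetCard ι d, ∏ t ∈ (s : Finset ι), α t = κ →
      ∑ t ∈ (s : Finset ι), x t = c := by
    by_cases h : ∃ s : Set.powersetCard ι d, ∏ t ∈ (s : Finset ι), α t = κ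
    · obtain ⟨s0, hs0⟩ := h
      refine ⟨∑ t ∈ (s0 : Finset ι), x t, fun s hs => ?_⟩
      exact hd _ _ s.2 s0.2 (by rw [hs, hs0])
    · exact ⟨0, fun s hs => absurd ⟨s, hs⟩ h⟩
  obtain ⟨c, hc⟩ := hc
  refine ⟨c, fun Y hY hmap => ?_⟩
  set y : (⋀[Ω]^d W : Submodule Ω (ExteriorAlgebra Ω W)) := ⟨Y, hY⟩ with hy
  have hsum : Y = ∑ s, b.repr y s • (b s : ExteriorAlgebra Ω W) := by
    have e1 := congrArg (fun z : (⋀[Ω]^d W : Submodule Ω (ExteriorAlgebra Ω W)) =>
      (z : ExteriorAlgebra Ω W)) (b.sum_repr y)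
    simp only [Submodule.coe_sum, Submodule.coe_smul] at e1
    exact e1.symm
  have hco : ∀ s, b.repr y s ≠ 0 → ∏ t ∈ (s : Finset ι), α t = κ := by
    have e1 : ∑ s, (b.repr y s * ∏ t ∈ (s : Finset ι), α t) • b s = ∑ s, (κ * b.repr y s) • b s := by
      apply Subtype.coe_injective
      simp only [Submodule.coe_sum, Submodule.coe_smul]
      have e2 : ∑ s, (b.repr y s * ∏ t ∈ (s : Finset ι), α t) • (b s : ExteriorAlgebra Ω W) =
          ExteriorAlgebra.map (dg v α) Y := by
        conv_rhs => rw [hsum]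
        rw [map_sum]
        refine Finset.sum_congr rfl fun s _ => ?_
        rw [map_smul, hb1, smul_smul]
      have e3 : ∑ s, (κ * b.repr y s) • (b s : ExteriorAlgebra Ω W) = κ • Y := by
        conv_rhs => rw [hsum]
        rw [Finset.smul_sum]
        refine Finset.sum_congr rfl fun s _ => ?_
        rw [smul_smul]
      rw [e2, e3, hmap]
    intro s hs
    have e2 := congrArg (fun z => b.repr z s) e1
    simp only [map_sum, map_smul, Module.Basis.repr_self, Finsupp.coe_finsetSum,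
      Finset.sum_apply, Finsupp.coe_smul, Pi.smul_apply, smul_eq_mul, Finsupp.single_apply,
      mul_ite, mul_one, mul_zero, Finset.sum_ite_eq', Finset.mem_univ, if_true] at e2
    rw [mul_comm κ] at e2
    exact mul_left_cancel₀ hs e2
  have e4 : dX (dg v x) Y = ∑ s, b.repr y s • dX (dg v x) (b s : ExteriorAlgebra Ω W) := by
    conv_lhs => rw [hsum]
    rw [map_sum]
    refine Finset.sum_congr rfl fun s _ => ?_
    rw [map_smul]
  rw [e4]
  conv_rhs => rw [hsum]
  rw [Finset.smul_sum]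
  refine Finset.sum_congr rfl fun s _ => ?_
  by_cases hs : b.repr y s = 0
  · rw [hs, zero_smul, zero_smul, smul_zero]
  · rw [hb2, hc s (hco s hs), smul_comm]

end

end Pool.Agent.AQ
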